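import Pool.Agent.Run7.h457.DB.Core

/-!
# Dubrovin's conjecture: rational threefolds, fourfolds, Fano threefolds, a closed class

`X` is a connected smooth projective complex variety (Fano or not), `SS X`: the big quantum cohomology
is generically semisimple, `FEC X`: `D^b(X)` has a full exceptional collection, `off X`: the sum of the
Hodge numbers `h^{p,q}`, `p ≠ q`. By Hertling, Manin and Teleman `SS X` implies `off X = 0`.

1. Let `X` and `Y` be birational of dimension at most three. Their residual atoms (the atoms of rank at
least two without classes off the diagonal) agree. If `off X = off Y = 0` then `SS X ↔ SS Y`. If `SS Y`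
then `SS X ↔ off X = 0`, and `FEC X → SS X`. In particular this holds for all rational threefolds `X`:
`SS X` holds exactly if `H³(X) = 0`, and a full exceptional collection implies semisimplicity.

2. The same for fourfolds `X` birational to `Y` with `SS Y` (for example rational fourfolds), if no
atom of `X` is the atom of a minimal surface with nef canonical bundle and `p_g = q = 0`.

3. The same in every dimension if `X` and `Y` are connected by blow-ups and blow-downs with tame
centers: points, curves, rational surfaces, surfaces with `p_g ≠ 0` or `q ≠ 0`, varieties with nef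
canonical bundle and `off ≠ 0`.

4. Q1 for all Fano threefolds, and for all Fano fourfolds with second Betti number larger than 12.

5. Q1 (`SS X ↔ FEC X`), and `SS X ↔ off X = 0`, for the class `Cls`: it contains the varieties with
`SS` and `FEC` (projective spaces, quadrics, Grassmannians, toric varieties, ...) and those with
`off ≠ 0`, and is closed under blow-ups along members, projective bundles and products.

The intermediate varieties in the factorization of a birational map of threefolds may be blow-ups along
curves of positive genus, their quantum cohomology is not semisimple; therefore the multiset of the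
residual atoms is used. The theorems used are collected in `Known`.
-/

set_option autoImplicit false

namespace Pool.Agent.Results.MP_78bf89_ag.RationalThreefolds

open Run7.H457.DB

theorem result (W : World) (K : Known W) :
    (∀ X Y, W.dim X ≤ 3 → W.Bir X Y →
      residual W X = residual W Y ∧ (W.off X = 0 → W.off Y = 0 → (W.SS X ↔ W.SS Y)) ∧
      (W.SS Y → (W.SS X ↔ W.off X = 0) ∧ (W.FEC X → W.SS X))) ∧
    (∀ X, W.dim X ≤ 3 → Rational W X → (W.SS X ↔ W.off X = 0) ∧ (W.FEC X → W.SS X)) ∧
    (∀ X Y, W.dim X ≤ 4 → W.Bir X Y → W.SS Y →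
      (W.SS X ↔ W.off X = 0 ∧ ∀ a ∈ W.atoms X, ¬ IsMinAtom W a) ∧
      (W.FEC X → (∀ a ∈ W.atoms X, ¬ IsMinAtom W a) → W.SS X)) ∧
    (∀ X Y, TameEquiv W X Y →
      residual W X = residual W Y ∧ (W.off X = 0 → W.off Y = 0 → (W.SS X ↔ W.SS Y)) ∧
      (W.SS Y → (W.SS X ↔ W.off X = 0) ∧ (W.FEC X → W.SS X))) ∧
    (∀ Z, W.dim Z ≤ 1 ∨ (W.dim Z = 2 ∧ (W.off Z ≠ 0 ∨ Rational W Z)) ∨
      (W.KNef Z ∧ W.off Z ≠ 0) → Tame W Z) ∧
    (∀ X, W.Fano X → W.dim X = 3 ∨ (W.dim X = 4 ∧ 12 < W.b2 X) → (W.SS X ↔ W.FEC X)) ∧
    (∀ X, Cls W X → (W.SS X ↔ W.FEC X) ∧ (W.SS X ↔ W.off X = 0)) := by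
  refine ⟨fun X Y hd h => threefolds K hd h,
    fun X hd h => rational_main K.atoms K.dim K.derived K.geom hd h,
    fun X Y hd h hY => four_main K.atoms K.dim K.derived K.geom hd h hY,
    fun X Y h => tame_main K.atoms K.derived h, ?_,
    fun X hF h => fano_main K.atoms K.dim K.derived K.prod K.geom hF h,
    fun X h => cls_equiv K.atoms K.dim K.derived K.prod h⟩
  rintro Z (h | ⟨h, h'⟩ | ⟨h, h'⟩)
  · exact K.atoms.low Z h
  · exact surf_tame K.atoms K.dim K.geom h h'
  · exact nef_tame K.atoms h h'

end Pool.Agent.Results.MP_78bf89_ag.RationalThreefolds
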